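import Pool.Agent.R544.TS.Mem

/-!
# Recognising totally synchronizing digraphs is coNP-complete

Hardness is by a reduction from the complement of 3SAT to digraphs with `k = 128`.  The digraph has
a chain of levels with two twin vertices each; its stationary weights are known, they do not depend
on the coloring and decrease by the factor `16` per level.  By a theorem of Friedman (proved here)
the fibres of a word of minimal rank have equal weights; as the vertex `0` has more than a third of
the total weight, an automaton which is not synchronizing gives a partition of the vertices into two
parts of the same weight.  Comparing the digits in base `16`, every level is balanced, and so are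
the lists of items at the levels, which encode the clauses.  Conversely a balanced partition gives a
coloring in which every letter keeps or exchanges the two parts.
-/

namespace Pool.Agent.Results.MP_00a7b4_lc.TotSyncCoNPComplete

open Pool.Agent.NPC Pool.Agent.R544.TS

/-- Recognising totally synchronizing digraphs is `coNP`-complete, and it stays `coNP`-hard for
`128`-out-regular digraphs. -/
theorem result : InCoNPP TotSync ∧ CoNPHardP TotSync ∧
    CoNPHardP (fun I : Inst => I.1 = 128 ∧ TotSync I) := by
  refine ⟨inCoNPP, HardPr.toCoNPHardP (hardPr_TS), HardPr.toCoNPHardP
    (Pr := fun I : Inst => I.1 = 128 ∧ IsOutRegular I) ?_⟩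
  refine hardPr_TS.trans (f := fun I => I) NPC.Poly.id (fun _ h => h) fun I h => ?_
  exact ⟨fun h' h'' => h' h''.2, fun h' h'' => h' ⟨h.1, h''⟩⟩

end Pool.Agent.Results.MP_00a7b4_lc.TotSyncCoNPComplete
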